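import Pool.Agent.ISB.StmtsA

/-!
# Squad ISB, row LIE: the theorem on Lie algebras
-/

set_option autoImplicit false

namespace Pool.Agent.ISB.H62

open scoped Classical commutatorElement

theorem lie (h1 : EonStmt) (h2 : KrkStmt) (h3 : NlbStmt) (h4 : HalStmt) : LieStmt := by
  intro F L _ _ _ r n σ ζ R H hr hA hC
  obtain ⟨e1, e2, -⟩ := h1 F L r n σ ζ R H hA hC
  exact h4 F L (Submodule.span F R) (a0 r n) (fk n r 0) e1.cl
    (fun t => h3 F L r n σ ζ R H hr hA hC t) (h2 F L r n σ ζ hA (Submodule.span F R) e1 e2)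

end Pool.Agent.ISB.H62
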